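import Pool.Agent.H29.UDP.TPro
import Pool.Agent.H18.LD.FDC

/-!
# Row STP of the board udp: smoothness propagates
-/

set_option autoImplicit false

open MeasureTheory SchwartzMap Filter Topology
open scoped ENNReal ContDiff InnerProductSpace

namespace Pool.Agent.H61.UDP

open Pool.Agent.H29.UDP
open Pool.Agent.H43.DPC (V S SD moment trans IsMAO)
open Pool.Agent.H43.DPCS (TransInv)
open Pool.Agent.H80.LD (RPos LocP)

noncomputable section

theorem trans_apply {d : ℕ} (v : V d) (f : S d) (x : V d) : trans v f x = f (x - v) := rfl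

/-- a compactly supported smooth function gives the moments near `x` -/
theorem loc_cpt {d n : ℕ} {μ : Measure (SD d)} {x : Fin n → V d} (h : LocP μ n x) :
    ∃ (r : ℝ) (u : (Fin n → V d) → ℝ), 0 < r ∧ ContDiff ℝ ∞ u ∧ HasCompactSupport u ∧
      ∀ f : Fin n → S d, (∀ i, tsupport (f i) ⊆ Metric.ball (x i) r) →
        moment μ f = ∫ y, u y * ∏ i, f i (y i) := by
  obtain ⟨r, u, hr, hu, hf⟩ := h
  let χ : ContDiffBump x := ⟨r, 2 * r, hr, by linarith⟩
  refine ⟨r, fun y => χ y * u y, hr, χ.contDiff.mul hu, χ.hasCompactSupport.mul_right, ?_⟩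
  intro f hs
  rw [hf f hs]
  refine integral_congr_ae (Eventually.of_forall fun y => ?_)
  show u y * ∏ i, f i (y i) = χ y * u y * ∏ i, f i (y i)
  by_cases hz : ∏ i, f i (y i) = 0
  · rw [hz, mul_zero, mul_zero]
  · have hy : y ∈ Metric.closedBall x r := by
      rw [Metric.mem_closedBall, dist_pi_le_iff hr.le]
      intro i
      have h1 : f i (y i) ≠ 0 := fun h0 => hz (Finset.prod_eq_zero (Finset.mem_univ i) h0)
      exact (Metric.mem_ball.1 (hs i (subset_tsupport _ h1))).le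
    rw [χ.one_of_mem_closedBall hy, one_mul]

/-- the mollified moments near `x` -/
theorem mm_loc {d n : ℕ} {μ : Measure (SD d)} {x : Fin n → V d} {ρ : S d} {r ε : ℝ}
    {u : (Fin n → V d) → ℝ} (hr : 0 < r)
    (hf : ∀ f : Fin n → S d, (∀ i, tsupport (f i) ⊆ Metric.ball (x i) r) →
        moment μ f = ∫ y, u y * ∏ i, f i (y i)) (hε : ε < r / 2)
    (hs : ∀ y, ρ y ≠ 0 → ‖y‖ ≤ ε) (z : Fin n → V d) (hz : z ∈ Metric.ball x (r / 2)) :
    mm μ ρ n z = ∫ y : Fin n → V d, u (y + z) * ∏ i, ρ (y i) := by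
  have h1 : ∀ i, tsupport (trans (z i) ρ : V d → ℝ) ⊆ Metric.ball (x i) r := by
    intro i
    have h2 : tsupport (trans (z i) ρ : V d → ℝ) ⊆ Metric.closedBall (z i) ε := by
      refine closure_minimal ?_ Metric.isClosed_closedBall
      intro y hy
      rw [Function.mem_support, trans_apply] at hy
      rw [Metric.mem_closedBall, dist_eq_norm]
      exact hs _ hy
    refine h2.trans ?_
    intro y hy
    rw [Metric.mem_closedBall] at hy
    have h3 : dist (z i) (x i) < r / 2 :=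
      (dist_pi_lt_iff (by linarith)).1 (Metric.mem_ball.1 hz) i
    rw [Metric.mem_ball]
    linarith [dist_triangle y (z i) (x i)]
  show moment μ (fun j => trans (z j) ρ) = _
  rw [hf _ h1]
  rw [← integral_add_right_eq_self (fun y : Fin n → V d => u y * ∏ i, trans (z i) ρ (y i)) z]
  refine integral_congr_ae (Eventually.of_forall fun y => ?_)
  show u (y + z) * ∏ i, trans (z i) ρ ((y + z) i) = u (y + z) * ∏ i, ρ (y i)
  congr 1
  refine Finset.prod_congr rfl fun i _ => ?_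
  rw [trans_apply, Pi.add_apply, add_sub_cancel_right]

/-- bounds for the differences of the mollified moments near a good point -/
theorem dm_loc {d n : ℕ} {μ : Measure (SD d)} {ρ : ℕ → S d} (hρ : Api ρ) {x : Fin n → V d}
    (hx : LocP μ n x) (D : Finset (Fin n → V d)) :
    ∃ (r : ℝ) (k₁ : ℕ) (C η : ℕ → ℝ), 0 < r ∧ (∀ m, 0 < η m) ∧ (∀ m, 0 ≤ C m) ∧
      ∀ y ∈ Metric.ball x r, ∀ k, k₁ ≤ k → ∀ m, ∀ v ∈ D, ∀ h : ℝ, 0 < h → h ≤ η m →
        |dm m h v (mm μ (ρ k) n) y| ≤ C m * h ^ m := by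
  classical
  obtain ⟨r, u, hr, hu, huc, hf⟩ := loc_cpt hx
  have hA : ∀ (m : ℕ) (v : Fin n → V d), ∃ A : ℝ, 0 ≤ A ∧ ∀ h : ℝ, 0 < h → ∀ x,
      |dm m h v u x| ≤ A * h ^ m := fun m v => Pool.Agent.H18.LD.dm_smooth v m u hu huc
  choose A hA0 hA using hA
  obtain ⟨k₁, hk₁⟩ := exists_nat_gt (4 / r)
  set W : ℝ := ∑ v ∈ D, ‖v‖ with hW
  have hW0 : 0 ≤ W := Finset.sum_nonneg fun _ _ => norm_nonneg _
  obtain ⟨B, hB⟩ := huc.exists_bound_of_continuous hu.continuous
  refine ⟨r / 4, k₁, fun m => ∑ v ∈ D, A m v, fun m => r / (4 * ((m : ℝ) + 1) * (W + 1)),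
    by linarith, fun m => by positivity, fun m => Finset.sum_nonneg fun v _ => hA0 m v, ?_⟩
  intro y hy k hk m v hv h hh hhη
  have hvW : ‖v‖ ≤ W := Finset.single_le_sum (f := fun v : Fin n → V d => ‖v‖)
    (fun _ _ => norm_nonneg _) hv
  have hmh : (m : ℝ) * h * ‖v‖ < r / 4 := by
    have h1 : (m : ℝ) * h ≤ m * (r / (4 * ((m : ℝ) + 1) * (W + 1))) :=
      mul_le_mul_of_nonneg_left hhη (Nat.cast_nonneg m)
    have h2 : (m : ℝ) * (r / (4 * ((m : ℝ) + 1) * (W + 1))) < r / 4 / (W + 1) := by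
      rw [mul_div_assoc', div_div, div_lt_div_iff₀ (by positivity) (by positivity)]
      have : 0 < r * (4 * (W + 1)) := by positivity
      nlinarith [(Nat.cast_nonneg m : (0 : ℝ) ≤ m)]
    have h3 : (m : ℝ) * h < r / 4 / (W + 1) := lt_of_le_of_lt h1 h2
    have h4 : r / 4 / (W + 1) * (W + 1) = r / 4 := by field_simp
    have h5 : (m : ℝ) * h * ‖v‖ ≤ m * h * (W + 1) :=
      mul_le_mul_of_nonneg_left (by linarith) (by positivity)
    have h6 : (m : ℝ) * h * (W + 1) < r / 4 / (W + 1) * (W + 1) :=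
      mul_lt_mul_of_pos_right h3 (by linarith)
    linarith
  have hkr : 1 / ((k : ℝ) + 1) < r / 2 := by
    have h1 : (k₁ : ℝ) ≤ k := by exact_mod_cast hk
    rw [div_lt_div_iff₀ (by positivity) (by norm_num)]
    rw [div_lt_iff₀ hr] at hk₁
    nlinarith
  have hball : ∀ i ∈ Finset.range (m + 1), y + ((i : ℝ) * h) • v ∈ Metric.ball x (r / 2) := by
    intro i hi
    rw [Metric.mem_ball] at hy ⊢
    have h1 : dist (y + ((i : ℝ) * h) • v) y < r / 4 := by
      rw [dist_eq_norm, add_sub_cancel_left, norm_smul, Real.norm_eq_abs,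
        abs_of_nonneg (by positivity)]
      have h2 : (i : ℝ) ≤ m := by exact_mod_cast Nat.lt_succ_iff.1 (Finset.mem_range.1 hi)
      have h3 : (i : ℝ) * h * ‖v‖ ≤ m * h * ‖v‖ := by gcongr
      linarith
    linarith [dist_triangle (y + ((i : ℝ) * h) • v) y x]
  have hint : ∀ a : Fin n → V d,
      Integrable (fun z : Fin n → V d => u (z + a) * ∏ i, ρ k (z i)) := by
    intro a
    refine Integrable.bdd_mul (c := B) ?_ ?_ ?_
    · exact Integrable.fintype_prod fun i => (ρ k).integrable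
    · exact (hu.continuous.comp (continuous_id.add continuous_const)).aestronglyMeasurable
    · exact Eventually.of_forall fun z => hB _
  have hpi : Integrable (fun z : Fin n → V d => ∏ i, ρ k (z i)) :=
    Integrable.fintype_prod fun i => (ρ k).integrable
  have hone : ∫ z : Fin n → V d, ∏ i, ρ k (z i) = 1 := by
    rw [integral_fintype_prod_volume_eq_prod (fun _ : Fin n => fun z : V d => ρ k z)]
    rw [Finset.prod_eq_one fun i _ => hρ.int k]
  have hkey : dm m h v (mm μ (ρ k) n) y =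
      ∫ z : Fin n → V d, dm m h v u (z + y) * ∏ i, ρ k (z i) := by
    have h1 : ∀ z : Fin n → V d, dm m h v u (z + y) * ∏ i, ρ k (z i) =
        ∑ i ∈ Finset.range (m + 1), (-1) ^ i * (m.choose i : ℝ) *
          (u (z + (y + ((i : ℝ) * h) • v)) * ∏ i, ρ k (z i)) := by
      intro z
      unfold dm
      rw [Finset.sum_mul]
      refine Finset.sum_congr rfl fun i _ => ?_
      rw [add_assoc]
      ring
    rw [integral_congr_ae (Eventually.of_forall h1),
      integral_finsetSum _ fun i _ => (hint _).const_mul _]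
    unfold dm
    refine Finset.sum_congr rfl fun i hi => ?_
    rw [integral_const_mul, mm_loc hr hf hkr (hρ.supp k) _ (hball i hi)]
  rw [hkey]
  have hle : |∫ z : Fin n → V d, dm m h v u (z + y) * ∏ i, ρ k (z i)| ≤
      ∫ z : Fin n → V d, (A m v * h ^ m) * ∏ i, ρ k (z i) := by
    rw [← Real.norm_eq_abs]
    refine norm_integral_le_of_norm_le (hpi.const_mul _) (Eventually.of_forall fun z => ?_)
    have h2 : 0 ≤ ∏ i, ρ k (z i) := Finset.prod_nonneg fun i _ => hρ.nonneg k _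
    rw [norm_mul, Real.norm_eq_abs, Real.norm_eq_abs, abs_of_nonneg h2]
    exact mul_le_mul_of_nonneg_right (hA m v h hh _) h2
  refine hle.trans ?_
  rw [integral_const_mul, hone, mul_one]
  exact mul_le_mul_of_nonneg_right
    (Finset.single_le_sum (f := fun v : Fin n → V d => A m v) (fun v _ => hA0 m v) hv)
    (by positivity)

/-- the bounds are uniform along a compact segment -/
theorem dm_unif {d n : ℕ} {μ : Measure (SD d)} {ρ : ℕ → S d} (hρ : Api ρ) {x w : Fin n → V d}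
    {τ₁ : ℝ} (hx : ∀ τ ∈ Set.Icc (τ₁ / 2) τ₁, LocP μ n (x + τ • w))
    (D : Finset (Fin n → V d)) :
    ∃ (r : ℝ) (k₁ : ℕ) (C η : ℕ → ℝ), 0 < r ∧ (∀ m, 0 < η m) ∧ (∀ m, 0 ≤ C m) ∧
      ∀ τ ∈ Set.Icc (τ₁ / 2) τ₁, ∀ y ∈ Metric.ball (x + τ • w) r, ∀ k, k₁ ≤ k → ∀ m, ∀ v ∈ D,
        ∀ h : ℝ, 0 < h → h ≤ η m → |dm m h v (mm μ (ρ k) n) y| ≤ C m * h ^ m := by
  refine isCompact_Icc.induction_on (p := fun T : Set ℝ =>
    ∃ (r : ℝ) (k₁ : ℕ) (C η : ℕ → ℝ), 0 < r ∧ (∀ m, 0 < η m) ∧ (∀ m, 0 ≤ C m) ∧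
      ∀ τ ∈ T, ∀ y ∈ Metric.ball (x + τ • w) r, ∀ k, k₁ ≤ k → ∀ m, ∀ v ∈ D,
        ∀ h : ℝ, 0 < h → h ≤ η m → |dm m h v (mm μ (ρ k) n) y| ≤ C m * h ^ m) ?_ ?_ ?_ ?_
  · exact ⟨1, 0, fun _ => 0, fun _ => 1, one_pos, fun _ => one_pos, fun _ => le_rfl,
      fun τ hτ => hτ.elim⟩
  · rintro T T' hTT ⟨r, k₁, C, η, h1, h2, h3, h4⟩
    exact ⟨r, k₁, C, η, h1, h2, h3, fun τ hτ => h4 τ (hTT hτ)⟩
  · rintro T T' ⟨r, k₁, C, η, h1, h2, h3, h4⟩ ⟨r', k₁', C', η', h1', h2', h3', h4'⟩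
    refine ⟨min r r', max k₁ k₁', fun m => max (C m) (C' m), fun m => min (η m) (η' m),
      lt_min h1 h1', fun m => lt_min (h2 m) (h2' m), fun m => le_max_of_le_left (h3 m), ?_⟩
    rintro τ (hτ | hτ) y hy k hk m v hv h hh hhη
    · refine (h4 τ hτ y (Metric.ball_subset_ball (min_le_left _ _) hy) k
        ((le_max_left _ _).trans hk) m v hv h hh (hhη.trans (min_le_left _ _))).trans ?_
      exact mul_le_mul_of_nonneg_right (le_max_left _ _) (by positivity)
    · refine (h4' τ hτ y (Metric.ball_subset_ball (min_le_right _ _) hy) k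
        ((le_max_right _ _).trans hk) m v hv h hh (hhη.trans (min_le_right _ _))).trans ?_
      exact mul_le_mul_of_nonneg_right (le_max_right _ _) (by positivity)
  · intro τ hτ
    obtain ⟨r, k₁, C, η, h1, h2, h3, h4⟩ := dm_loc hρ (hx τ hτ) D
    have hcont : Continuous fun σ : ℝ => x + σ • w :=
      continuous_const.add (continuous_id.smul continuous_const)
    have hopen : IsOpen ((fun σ : ℝ => x + σ • w) ⁻¹' Metric.ball (x + τ • w) (r / 2)) :=
      Metric.isOpen_ball.preimage hcont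
    refine ⟨_, mem_nhdsWithin_of_mem_nhds (hopen.mem_nhds ?_), r / 2, k₁, C, η, by linarith,
      h2, h3, ?_⟩
    · show x + τ • w ∈ Metric.ball (x + τ • w) (r / 2)
      exact Metric.mem_ball_self (by linarith)
    · intro σ hσ y hy
      refine h4 y ?_
      have hσ' : dist (x + σ • w) (x + τ • w) < r / 2 := hσ
      rw [Metric.mem_ball] at hy ⊢
      linarith [dist_triangle y (x + σ • w) (x + τ • w)]

/-- differences of a quotient -/
theorem dm_div {E : Type} [AddCommGroup E] [Module ℝ E] (m : ℕ) (h : ℝ) (v : E) (s : E → ℝ)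
    (c : ℝ) (x : E) : dm m h v (fun y => s y / c) x = dm m h v s x / c := by
  unfold dm
  rw [Finset.sum_div]
  exact Finset.sum_congr rfl fun i _ => by ring

theorem pf_STP (hAPI : T_API) (hDIG : T_DIG) (hHRT : T_HRT) (hMAR : T_MAR) (hLOX : T_LOX) :
    T_STP := by
  classical
  intro d μ _ hμ hT n x e R c δ τ₀ he hRP hRI hδ hτ₀ hSpt hloc
  obtain ⟨ρ, hρ⟩ := hAPI d
  obtain ⟨Λ, N, hΛ, hdig⟩ := hDIG d μ hμ hT ρ hρ n
  set w : Fin n → V d := grp R e with hw
  -- the spanning set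
  let D : Finset (Fin n → V d) :=
    Finset.univ.image (Module.finBasis ℝ (Fin n → V d) : _ → (Fin n → V d))
  have hspan : Submodule.span ℝ (D : Set (Fin n → V d)) = ⊤ := by
    have : (D : Set (Fin n → V d)) = Set.range (Module.finBasis ℝ (Fin n → V d)) := by
      simp [D]
    rw [this]
    exact (Module.finBasis ℝ (Fin n → V d)).span_eq
  set τ₁ : ℝ := min τ₀ (δ / 1024) with hτ₁
  have hτ₁0 : 0 < τ₁ := lt_min hτ₀ (by positivity)
  have hτ₁δ : τ₁ ≤ δ / 1024 := min_le_right _ _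
  obtain ⟨r', k₁, C, η, hr', hη, hC, hun⟩ := dm_unif (τ₁ := τ₁) hρ (x := x) (w := w) (μ := μ)
    (fun τ hτ => hloc τ (by linarith [hτ.1]) (hτ.2.trans (min_le_left _ _))) D
  set r₁ : ℝ := min (δ / 4) r' with hr₁
  have hr₁0 : 0 < r₁ := lt_min (by linarith) hr'
  obtain ⟨k₂, hk₂⟩ := exists_nat_ge (4 / δ)
  refine hLOX d μ hμ hT ρ hρ n x (r₁ / 4) D N (max k₁ k₂) (by linarith) hspan ?_
  intro m
  obtain ⟨K, η', hη', hK⟩ := hHRT (Fin n → V d) x w r₁ τ₁ (8 / δ) D C η hr₁0 hτ₁0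
    (by positivity) (by
      have : 128 * (8 / δ) * τ₁ ≤ 128 * (8 / δ) * (δ / 1024) :=
        mul_le_mul_of_nonneg_left hτ₁δ (by positivity)
      refine this.trans (le_of_eq ?_)
      field_simp
      norm_num) hη (m + 1)
  set W : ℝ := ∑ v ∈ D, ‖v‖ with hW
  have hW0 : 0 ≤ W := Finset.sum_nonneg fun _ _ => norm_nonneg _
  obtain ⟨K', η'', hK'0, hη'', hK'⟩ := hMAR (2 * (m + 1)) (m + 1) m η' (r₁ / 2) W
    (Nat.lt_succ_self m) hη' (by linarith) hW0
  refine ⟨Λ * (K' * max 1 K), min η'' η', lt_min hη'' hη', ?_⟩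
  intro k hk v hv h hh hhη y hy
  have hk1 : k₁ ≤ k := (le_max_left _ _).trans hk
  have hk2 : 4 ≤ δ * ((k : ℝ) + 1) := by
    have h1 : (k₂ : ℝ) ≤ k := by exact_mod_cast (le_max_right _ _).trans hk
    rw [div_le_iff₀ hδ] at hk₂
    nlinarith
  have hP1 : 1 ≤ Λ * ((k : ℝ) + 1) ^ N := by
    have : (1 : ℝ) ≤ ((k : ℝ) + 1) ^ N := one_le_pow₀ (by linarith [(Nat.cast_nonneg k : (0 : ℝ) ≤ k)])
    nlinarith
  set P : ℝ := Λ * ((k : ℝ) + 1) ^ N with hP
  have hP0 : 0 < P := by linarith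
  let s : (Fin n → V d) → ℝ := fun y => mm μ (ρ k) n y / P
  have hs1 : ∀ y ∈ Metric.ball x r₁, ∀ τ : ℝ, 0 ≤ τ → τ ≤ τ₁ → ∀ (m : ℕ) (q : ℝ), 0 < q →
      m * q ≤ τ₁ → |dm m q w s (y + τ • w)| ≤ (8 / δ * (m * q)) ^ m := by
    intro y hy τ hτ _ m q hq hmq
    have h1 := hdig e he hRP hRI x R c δ hδ hSpt k hk2 y
      (Metric.ball_subset_ball (min_le_left _ _) hy) τ hτ m q hq (by linarith)
    show |dm m q w (fun y => mm μ (ρ k) n y / P) (y + τ • w)| ≤ _
    rw [dm_div, abs_div, abs_of_pos hP0, div_le_iff₀ hP0, mul_comm]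
    exact h1
  have hs2 : ∀ τ : ℝ, τ₁ / 2 ≤ τ → τ ≤ τ₁ → ∀ y ∈ Metric.ball (x + τ • w) r₁, ∀ m : ℕ,
      ∀ v ∈ D, ∀ h : ℝ, 0 < h → h ≤ η m → |dm m h v s y| ≤ C m * h ^ m := by
    intro τ h1 h2 y hy m v hv h hh hhη
    have h3 := hun τ ⟨h1, h2⟩ y (Metric.ball_subset_ball (min_le_right _ _) hy) k hk1 m v hv h
      hh hhη
    show |dm m h v (fun y => mm μ (ρ k) n y / P) y| ≤ _
    rw [dm_div, abs_div, abs_of_pos hP0]
    refine (div_le_self (abs_nonneg _) hP1).trans h3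
  have hs3 : ∀ y ∈ Metric.ball x r₁, |s y| ≤ 1 := by
    intro y hy
    have h1 := hs1 y hy 0 le_rfl hτ₁0.le 0 1 one_pos (by simpa using hτ₁0.le)
    simpa [dm] using h1
  have hres := hK' (Fin n → V d) x v s (max 1 K)
    (Finset.single_le_sum (f := fun v : Fin n → V d => ‖v‖) (fun _ _ => norm_nonneg _) hv)
    (le_max_of_le_left zero_le_one)
    (fun y hy => (hs3 y (Metric.ball_subset_ball (by linarith) hy)).trans (le_max_left _ _))
    (fun h hh hhη y hy _ => (hK s hs1 hs2 v hv h hh hhη y hy).trans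
      (mul_le_mul_of_nonneg_right (le_max_right _ _) (by positivity)))
    h hh (hhη.trans (min_le_left _ _)) y (by
      have : r₁ / 2 / 2 = r₁ / 4 := by ring
      rw [this]
      exact hy)
  have hfin : |dm m h v (mm μ (ρ k) n) y| = P * |dm m h v s y| := by
    show _ = P * |dm m h v (fun y => mm μ (ρ k) n y / P) y|
    rw [dm_div, abs_div, abs_of_pos hP0]
    field_simp
  rw [hfin]
  calc P * |dm m h v s y| ≤ P * (K' * max 1 K * h ^ m) :=
        mul_le_mul_of_nonneg_left hres hP0.le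
    _ = Λ * (K' * max 1 K) * ((k : ℝ) + 1) ^ N * h ^ m := by rw [hP]; ring

end

end Pool.Agent.H61.UDP
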